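import Pool.Agent.WR4.Stmts

/-!
# Row SHP of squad WR4: the typical pairs
-/

set_option autoImplicit false

namespace Pool.Agent.WR4.H92

open Pool.Agent.WIR Pool.Agent.WR2 Pool.Agent.WR3
open scoped BigOperators

theorem mn_le (n : ℕ) : mn n ^ 6 ≤ n := by
  unfold mn
  have h := Nat.findGreatest_spec (P := fun m => m ^ 6 ≤ n) (m := 0) (n := n) (Nat.zero_le n)
    (by norm_num)
  exact h

theorem le_mn {m n : ℕ} (h : m ^ 6 ≤ n) : m ≤ mn n := by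
  unfold mn
  refine Nat.le_findGreatest ?_ h
  exact (Nat.le_self_pow (by norm_num) m).trans h

theorem lt_mn (n : ℕ) : n < (mn n + 1) ^ 6 := by
  by_contra h
  push Not at h
  have := le_mn h
  omega

/-- the number of steps of a typical pair -/
theorem tau_le {n m τ l : ℕ} {x : ℝ} (hn : 1 ≤ n) (hx : x < 2 ^ (n + 1)) (hm : m ^ 6 ≤ n)
    (h1 : (2 : ℝ) ^ τ ≤ x * 3 ^ l) (h2 : TP m τ l) : τ ≤ 15 * n := by
  obtain ⟨h3, h4, h5⟩ := h2
  have hm4 : m ^ 4 ≤ n := by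
    rcases Nat.eq_zero_or_pos m with h | h
    · rw [h]
      norm_num
    · exact (Nat.pow_le_pow_right h (by norm_num)).trans hm
  have h6 : 2 * l ≤ τ + n := by
    have h7 := (abs_le.1 h3).2
    have h8 : (2 * (l : ℤ)) ≤ τ + (m : ℤ) ^ 4 := by linarith
    have h9 : 2 * l ≤ τ + m ^ 4 := by exact_mod_cast h8
    omega
  have h7 : (2 : ℝ) ^ τ ≤ 2 ^ (n + 1) * 3 ^ l := by
    refine h1.trans ?_
    exact mul_le_mul_of_nonneg_right hx.le (by positivity)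
  have h8 : (2 : ℕ) ^ τ ≤ 2 ^ (n + 1) * 3 ^ l := by exact_mod_cast h7
  have h9 : 4 ^ τ ≤ 4 ^ (n + 1) * 3 ^ (τ + n) := by
    calc 4 ^ τ = (2 ^ τ) ^ 2 := by rw [← pow_mul, mul_comm, pow_mul]; norm_num
      _ ≤ (2 ^ (n + 1) * 3 ^ l) ^ 2 := Nat.pow_le_pow_left h8 2
      _ = 4 ^ (n + 1) * 3 ^ (2 * l) := by
          rw [mul_pow, ← pow_mul, ← pow_mul, mul_comm (n + 1) 2, mul_comm l 2, pow_mul]
          norm_num
      _ ≤ 4 ^ (n + 1) * 3 ^ (τ + n) :=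
          Nat.mul_le_mul_left _ (Nat.pow_le_pow_right (by norm_num) h6)
  by_contra hcon
  push Not at hcon
  obtain ⟨k, hk⟩ : ∃ k, τ = 15 * n + k := Nat.exists_eq_add_of_le hcon.le
  have h10 : 4 ^ (n + 1) * 3 ^ (τ + n) < 4 ^ τ := by
    calc 4 ^ (n + 1) * 3 ^ (τ + n) ≤ 4 ^ (2 * n) * 3 ^ (τ + n) :=
          Nat.mul_le_mul_right _ (Nat.pow_le_pow_right (by norm_num) (by omega))
      _ = (4 ^ 2 * 3 ^ 16) ^ n * 3 ^ k := by
          rw [hk, show 15 * n + k + n = 16 * n + k by ring, pow_add 3, mul_pow, ← pow_mul,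
            ← pow_mul, mul_assoc]
      _ ≤ (4 ^ 15) ^ n * 3 ^ k := Nat.mul_le_mul_right _ (Nat.pow_le_pow_left (by norm_num) n)
      _ < (4 ^ 15) ^ n * 4 ^ k :=
          Nat.mul_lt_mul_of_pos_left (Nat.pow_lt_pow_left (by norm_num) (by omega))
            (by positivity)
      _ = 4 ^ τ := by rw [hk, pow_add, pow_mul]
  omega

theorem pj_cast {m l : ℕ} (h : m ≤ l) (a : ℕ) :
    pj m l ((a : ℕ) : ZMod (3 ^ l)) = ((a : ℕ) : ZMod (3 ^ m)) := by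
  unfold pj
  rw [ZMod.val_natCast]
  exact (ZMod.natCast_eq_natCast_iff' _ _ _).2 (Nat.mod_mod_of_dvd a (pow_dvd_pow 3 h))

theorem sum_av (N : ℕ) (f : ℕ → ℝ) : ∑ a ∈ Finset.Icc 1 (3 ^ N), f a = 3 ^ N * av N f := by
  unfold av
  rw [mul_div_cancel₀]
  positivity

/-- one typical pair -/
theorem pair_bound (h2 : CodStmt) (h3 : AvaStmt) (h4 : WrbStmt) {C δ : ℝ} (hC : 0 ≤ C)
    (hδ : 0 < δ) {m0 : ℕ}
    (hul : ∀ m M l : ℕ, m0 ≤ m → m ^ 6 ≤ M →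
      |2 * (l : ℤ) - M| ≤ (m : ℤ) ^ 4 → 8 * l ≤ 5 * M →
      ∑ x : ZMod (3 ^ l), max 0 (|(cnt M {l} l x : ℝ) - (M.choose l : ℝ) / 3 ^ l * W m (pj m l x)|
        - δ * ((M.choose l : ℝ) / 3 ^ l * W m (pj m l x)))
      ≤ C / ((m : ℝ) + 1) ^ 24 * 2 ^ M)
    {m τ l N : ℕ} {x : ℝ} (hm0 : m0 ≤ m) (hm2 : 2 ≤ m) (hT : TP m τ l) (hl : l ≤ τ) (hN : τ ≤ N)
    (hx : (2 : ℝ) ^ τ ≤ x * 3 ^ l) :
    ∑ a ∈ Finset.Icc 1 (3 ^ N), |(uT τ l a : ℝ) - (τ.choose l : ℝ) / 3 ^ l * wr m a| ≤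
      3 ^ N * (C / ((m : ℝ) + 1) ^ 24 * x + δ * ((τ.choose l : ℝ) / 3 ^ l)) := by
  obtain ⟨hT1, hT2, hT3⟩ := hT
  have hml : m ≤ l := by
    have h5 := (abs_le.1 hT1).1
    have h6 : (τ : ℤ) ≤ 2 * l + (m : ℤ) ^ 4 := by linarith
    have h7 : τ ≤ 2 * l + m ^ 4 := by exact_mod_cast h6
    have h8 : m ^ 6 = m ^ 4 * m ^ 2 := by ring
    have h9 : 4 ≤ m ^ 2 := by nlinarith
    have h10 : m ≤ m ^ 4 := Nat.le_self_pow (by norm_num) m
    have h11 : m ^ 4 * 4 ≤ m ^ 6 := by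
      rw [h8]
      exact Nat.mul_le_mul_left _ h9
    omega
  have hav := hul m τ l hm0 hT2 hT1 hT3
  obtain ⟨c, hc⟩ : ∃ c : ℝ, c = (τ.choose l : ℝ) / 3 ^ l := ⟨_, rfl⟩
  have hc0 : 0 ≤ c := by
    rw [hc]
    positivity
  rw [← hc] at hav ⊢
  obtain ⟨F, hF⟩ : ∃ F : ZMod (3 ^ l) → ℝ, ∀ z, F z =
      max 0 (|(cnt τ {l} l z : ℝ) - c * W m (pj m l z)| - δ * (c * W m (pj m l z))) :=
    ⟨_, fun _ => rfl⟩
  have hav' : ∑ z, F z ≤ C / ((m : ℝ) + 1) ^ 24 * 2 ^ τ := by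
    refine le_trans (le_of_eq ?_) hav
    exact Finset.sum_congr rfl fun z _ => hF z
  have hpt : ∀ a ∈ Finset.Icc 1 (3 ^ N), |(uT τ l a : ℝ) - c * wr m a| ≤
      F ((a : ℕ) : ZMod (3 ^ l)) + δ * c * wr m a := by
    intro a ha
    have ha1 : 0 < a := (Finset.mem_Icc.1 ha).1
    rw [hF, h2 τ l a ha1, pj_cast hml a]
    have e : wr m a = W m ((a : ℕ) : ZMod (3 ^ m)) := rfl
    rw [← e]
    have h5 := le_max_right 0 (|(cnt τ {l} l ((a : ℕ) : ZMod (3 ^ l)) : ℝ) - c * wr m a|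
      - δ * (c * wr m a))
    have e2 : δ * (c * wr m a) = δ * c * wr m a := by ring
    linarith
  have hFsum : ∑ a ∈ Finset.Icc 1 (3 ^ N), F ((a : ℕ) : ZMod (3 ^ l)) ≤
      3 ^ N * (C / ((m : ℝ) + 1) ^ 24 * x) := by
    obtain ⟨hL, hA⟩ := h3.2.1 l F
    rw [sum_av N (fun a => F ((a : ℕ) : ZMod (3 ^ l))),
      (h3.1 l N (fun a => F ((a : ℕ) : ZMod (3 ^ l))) hL (hl.trans hN)).2, hA]
    refine mul_le_mul_of_nonneg_left ?_ (by positivity)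
    rw [div_le_iff₀ (by positivity)]
    refine hav'.trans ?_
    rw [mul_assoc]
    exact mul_le_mul_of_nonneg_left hx (by positivity)
  have hWsum : ∑ a ∈ Finset.Icc 1 (3 ^ N), wr m a ≤ 3 ^ N := by
    obtain ⟨hL, hA⟩ := h4.2.1 m
    rw [sum_av N (wr m), (h3.1 m N (wr m) hL (hml.trans (hl.trans hN))).2]
    calc (3 : ℝ) ^ N * av m (wr m) ≤ 3 ^ N * 1 := mul_le_mul_of_nonneg_left hA (by positivity)
      _ = 3 ^ N := mul_one _
  calc ∑ a ∈ Finset.Icc 1 (3 ^ N), |(uT τ l a : ℝ) - c * wr m a|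
      ≤ ∑ a ∈ Finset.Icc 1 (3 ^ N), (F ((a : ℕ) : ZMod (3 ^ l)) + δ * c * wr m a) :=
        Finset.sum_le_sum hpt
    _ = ∑ a ∈ Finset.Icc 1 (3 ^ N), F ((a : ℕ) : ZMod (3 ^ l)) +
        δ * c * ∑ a ∈ Finset.Icc 1 (3 ^ N), wr m a := by
        rw [Finset.sum_add_distrib, Finset.mul_sum]
    _ ≤ 3 ^ N * (C / ((m : ℝ) + 1) ^ 24 * x) + δ * c * 3 ^ N :=
        add_le_add hFsum (mul_le_mul_of_nonneg_left hWsum (mul_nonneg hδ.le hc0))
    _ = 3 ^ N * (C / ((m : ℝ) + 1) ^ 24 * x + δ * c) := by ring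

/-- counting the typical pairs -/
theorem count_pairs (P : ℕ → ℕ → Prop) [∀ τ l, Decidable (P τ l)] (K t : ℕ) (hP : ∀ τ l, P τ l → τ ≤ K) {B : ℝ}
    (hB : 0 ≤ B) :
    ∑ τ ∈ Finset.range t, ∑ l ∈ Finset.range (τ + 1), (if P τ l then B else 0) ≤
      ((K : ℝ) + 1) ^ 2 * B := by
  have h1 : ∀ τ ∈ Finset.range t, ∑ l ∈ Finset.range (τ + 1), (if P τ l then B else 0) ≤
      if τ < K + 1 then ((K : ℝ) + 1) * B else 0 := by
    intro τ _
    by_cases h : τ < K + 1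
    · rw [if_pos h]
      calc ∑ l ∈ Finset.range (τ + 1), (if P τ l then B else 0)
          ≤ ∑ _l ∈ Finset.range (τ + 1), B := by
            refine Finset.sum_le_sum fun l _ => ?_
            split_ifs
            · exact le_refl _
            · exact hB
        _ = ((τ : ℝ) + 1) * B := by
            rw [Finset.sum_const, Finset.card_range, nsmul_eq_mul]
            push_cast
            ring
        _ ≤ ((K : ℝ) + 1) * B := by
            refine mul_le_mul_of_nonneg_right ?_ hB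
            have : (τ : ℝ) ≤ K := by exact_mod_cast Nat.lt_succ_iff.1 h
            linarith
    · rw [if_neg h]
      refine le_of_eq (Finset.sum_eq_zero fun l _ => ?_)
      rw [if_neg]
      intro h2
      have := hP τ l h2
      omega
  refine (Finset.sum_le_sum h1).trans ?_
  rw [← Finset.sum_filter, Finset.sum_const, nsmul_eq_mul]
  have h2 : ((Finset.range t).filter (fun τ => τ < K + 1)).card ≤ K + 1 := by
    calc ((Finset.range t).filter (fun τ => τ < K + 1)).card ≤ (Finset.range (K + 1)).card := by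
          refine Finset.card_le_card fun τ hτ => ?_
          exact Finset.mem_range.2 (Finset.mem_filter.1 hτ).2
      _ = K + 1 := Finset.card_range _
  have h3 : (((Finset.range t).filter (fun τ => τ < K + 1)).card : ℝ) ≤ (K : ℝ) + 1 := by
    exact_mod_cast h2
  calc (((Finset.range t).filter (fun τ => τ < K + 1)).card : ℝ) * (((K : ℝ) + 1) * B)
      ≤ ((K : ℝ) + 1) * (((K : ℝ) + 1) * B) :=
        mul_le_mul_of_nonneg_right h3 (by positivity)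
    _ = ((K : ℝ) + 1) ^ 2 * B := by ring

/-- **Row SHP** -/
theorem shp (h1 : UlxStmt) (h2 : CodStmt) (h3 : AvaStmt) (h4 : WrbStmt) : ShpStmt := by
  classical
  intro δ hδ
  obtain ⟨C, hC1, hC⟩ := h1 24
  obtain ⟨m0, hm0⟩ := hC δ hδ
  have hC0 : 0 ≤ C := by linarith
  obtain ⟨n0, hn0⟩ : ∃ n0 : ℕ, n0 = max ⌈256 * C / δ⌉₊ ((max m0 2) ^ 6) + 1 := ⟨_, rfl⟩
  refine ⟨2 ^ n0, one_le_pow₀ (by norm_num), ?_⟩
  intro x t N hx htN
  have hxpos : 0 < x := lt_of_lt_of_le (by positivity) hx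
  obtain ⟨n, hn⟩ : ∃ n, n = Nat.log 2 ⌊x⌋₊ := ⟨_, rfl⟩
  have hfl : 2 ^ n0 ≤ ⌊x⌋₊ := Nat.le_floor (by push_cast; exact hx)
  have hfl0 : ⌊x⌋₊ ≠ 0 := by
    have : 0 < 2 ^ n0 := by positivity
    omega
  have hnn0 : n0 ≤ n := by
    rw [hn]
    exact (Nat.le_log_iff_pow_le (by norm_num) hfl0).2 hfl
  have hn1 : 1 ≤ n := by omega
  have hxlt : x < 2 ^ (n + 1) := by
    have h5 : ⌊x⌋₊ < 2 ^ (n + 1) := by
      rw [hn]
      exact Nat.lt_pow_succ_log_self (by norm_num) _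
    have h6 : x < ⌊x⌋₊ + 1 := Nat.lt_floor_add_one x
    have h7 : ((⌊x⌋₊ : ℝ) + 1) ≤ 2 ^ (n + 1) := by
      exact_mod_cast h5
    linarith
  obtain ⟨m, hm⟩ : ∃ m, m = mn n := ⟨_, rfl⟩
  have hmx : mx x = m := by
    rw [hm, hn]
    rfl
  have hm6 : m ^ 6 ≤ n := by
    rw [hm]
    exact mn_le n
  have hm7 : n < (m + 1) ^ 6 := by
    rw [hm]
    exact lt_mn n
  have hmb : max m0 2 ≤ m := by
    rw [hm]
    refine le_mn ?_
    have := le_max_right ⌈256 * C / δ⌉₊ ((max m0 2) ^ 6)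
    omega
  have hmm0 : m0 ≤ m := (le_max_left _ _).trans hmb
  have hmm2 : 2 ≤ m := (le_max_right _ _).trans hmb
  rw [hmx]
  -- the error constant
  have hnC : 256 * C ≤ δ * n := by
    have h5 : 256 * C / δ ≤ n := by
      refine (Nat.le_ceil _).trans ?_
      have : ⌈256 * C / δ⌉₊ ≤ n := by
        have := le_max_left ⌈256 * C / δ⌉₊ ((max m0 2) ^ 6)
        omega
      exact_mod_cast this
    rw [div_le_iff₀ hδ] at h5
    linarith
  have hn1R : (1 : ℝ) ≤ n := by exact_mod_cast hn1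
  have hm7R : (n : ℝ) ≤ ((m : ℝ) + 1) ^ 6 := by exact_mod_cast hm7.le
  have hE : (((15 * n : ℕ) : ℝ) + 1) ^ 2 * (C / ((m : ℝ) + 1) ^ 24 * x) ≤ δ * x := by
    have h5 : (n : ℝ) ^ 4 ≤ ((m : ℝ) + 1) ^ 24 := by
      calc (n : ℝ) ^ 4 ≤ (((m : ℝ) + 1) ^ 6) ^ 4 := pow_le_pow_left₀ (by positivity) hm7R 4
        _ = ((m : ℝ) + 1) ^ 24 := by rw [← pow_mul]
    have h6 : (((15 * n : ℕ) : ℝ) + 1) ^ 2 ≤ 256 * (n : ℝ) ^ 2 := by
      push_cast
      nlinarith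
    have h7 : (((15 * n : ℕ) : ℝ) + 1) ^ 2 * C ≤ δ * ((m : ℝ) + 1) ^ 24 := by
      calc (((15 * n : ℕ) : ℝ) + 1) ^ 2 * C ≤ 256 * (n : ℝ) ^ 2 * C :=
            mul_le_mul_of_nonneg_right h6 hC0
        _ = (n : ℝ) ^ 2 * (256 * C) := by ring
        _ ≤ (n : ℝ) ^ 2 * (δ * n) := mul_le_mul_of_nonneg_left hnC (by positivity)
        _ ≤ (n : ℝ) ^ 2 * (δ * n) * n := le_mul_of_one_le_right (by positivity) hn1R
        _ = δ * (n : ℝ) ^ 4 := by ring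
        _ ≤ δ * ((m : ℝ) + 1) ^ 24 := mul_le_mul_of_nonneg_left h5 hδ.le
    have h8 : (((15 * n : ℕ) : ℝ) + 1) ^ 2 * (C / ((m : ℝ) + 1) ^ 24 * x) =
        (((15 * n : ℕ) : ℝ) + 1) ^ 2 * C / ((m : ℝ) + 1) ^ 24 * x := by ring
    rw [h8]
    refine mul_le_mul_of_nonneg_right ?_ hxpos.le
    rw [div_le_iff₀ (by positivity)]
    exact h7
  obtain ⟨E, hEd⟩ : ∃ E : ℝ, E = C / ((m : ℝ) + 1) ^ 24 * x := ⟨_, rfl⟩
  have hE0 : 0 ≤ E := by
    rw [hEd]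
    positivity
  have hterm : ∀ τ ∈ Finset.range t, ∀ l ∈ Finset.range (τ + 1),
      (if (2 : ℝ) ^ τ ≤ x * 3 ^ l ∧ TP m τ l then
        ∑ a ∈ Finset.Icc 1 (3 ^ N), |(uT τ l a : ℝ) - (τ.choose l : ℝ) / 3 ^ l * wr m a| else 0)
      ≤ 3 ^ N * ((if (2 : ℝ) ^ τ ≤ x * 3 ^ l ∧ TP m τ l then E else 0) +
        δ * (if (2 : ℝ) ^ τ ≤ x * 3 ^ l then (τ.choose l : ℝ) / 3 ^ l else 0)) := by
    intro τ hτ l hl
    have hτt := Finset.mem_range.1 hτ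
    have hlτ := Finset.mem_range.1 hl
    by_cases h5 : (2 : ℝ) ^ τ ≤ x * 3 ^ l ∧ TP m τ l
    · rw [if_pos h5, if_pos h5, if_pos h5.1, hEd]
      exact pair_bound h2 h3 h4 hC0 hδ hm0 hmm0 hmm2 h5.2 (by omega) (by omega) h5.1
    · rw [if_neg h5, if_neg h5, zero_add]
      have h6 : (0 : ℝ) ≤ (if (2 : ℝ) ^ τ ≤ x * 3 ^ l then (τ.choose l : ℝ) / 3 ^ l else 0) := by
        split_ifs
        · positivity
        · exact le_refl _
      positivity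
  calc ∑ τ ∈ Finset.range t, ∑ l ∈ Finset.range (τ + 1),
      (if (2 : ℝ) ^ τ ≤ x * 3 ^ l ∧ TP m τ l then
        ∑ a ∈ Finset.Icc 1 (3 ^ N), |(uT τ l a : ℝ) - (τ.choose l : ℝ) / 3 ^ l * wr m a| else 0)
      ≤ ∑ τ ∈ Finset.range t, ∑ l ∈ Finset.range (τ + 1),
        3 ^ N * ((if (2 : ℝ) ^ τ ≤ x * 3 ^ l ∧ TP m τ l then E else 0) +
        δ * (if (2 : ℝ) ^ τ ≤ x * 3 ^ l then (τ.choose l : ℝ) / 3 ^ l else 0)) :=
        Finset.sum_le_sum fun τ hτ => Finset.sum_le_sum fun l hl => hterm τ hτ l hl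
    _ = 3 ^ N * (∑ τ ∈ Finset.range t, ∑ l ∈ Finset.range (τ + 1),
          (if (2 : ℝ) ^ τ ≤ x * 3 ^ l ∧ TP m τ l then E else 0) + δ * TM t x) := by
        unfold TM
        simp only [← Finset.mul_sum, Finset.sum_add_distrib]
    _ ≤ 3 ^ N * (δ * x + δ * TM t x) := by
        refine mul_le_mul_of_nonneg_left ?_ (by positivity)
        refine add_le_add ?_ (le_refl _)
        refine (count_pairs (fun τ l => (2 : ℝ) ^ τ ≤ x * 3 ^ l ∧ TP m τ l) (15 * n) t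
          (fun τ l h => tau_le hn1 hxlt hm6 h.1 h.2) hE0).trans ?_
        rw [hEd]
        exact hE
    _ = 3 ^ N * (δ * TM t x + δ * x) := by ring

end Pool.Agent.WR4.H92
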